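import Pool.Agent.Y507.LS2.Stm
set_option autoImplicit false

/-! # Fourier transform of ellipsoids with axes parallel to the coordinate axes -/

open MeasureTheory Set Filter
open scoped ENNReal Topology

namespace Pool.Agent.Y407.LS2

open Pool.Agent.TH280.LS Pool.Agent.Y507.LS2

lemma int_scale {m : ℕ} (l : Fin m → ℝ) (hl : ∀ i, 0 < l i) (f : (Fin m → ℝ) → ℂ) :
    ∫ y, f y = ((∏ i, l i : ℝ) : ℂ) * ∫ w : Fin m → ℝ, f (fun i => l i * w i) := by
  have hp : 0 < ∏ i, l i := Finset.prod_pos fun i _ => hl i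
  have hdet : Matrix.det (Matrix.diagonal l) = ∏ i, l i := Matrix.det_diagonal
  have hne : Matrix.det (Matrix.diagonal l) ≠ 0 := by rw [hdet]; exact hp.ne'
  have h1 := Real.smul_map_diagonal_volume_pi (D := l) hne
  rw [hdet, abs_of_pos hp] at h1
  have hlin : ∀ w : Fin m → ℝ, Matrix.toLin' (Matrix.diagonal l) w = fun i => l i * w i := by
    intro w
    funext i
    rw [Matrix.toLin'_apply, Matrix.mulVec_diagonal]
  have hinj : Function.Injective (Matrix.toLin' (Matrix.diagonal l)) := by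
    intro a b hab
    rw [hlin, hlin] at hab
    funext i
    have := congrFun hab i
    exact mul_left_cancel₀ (hl i).ne' this
  have hcont : Continuous (Matrix.toLin' (Matrix.diagonal l)) :=
    LinearMap.continuous_of_finiteDimensional _
  have hemb : MeasurableEmbedding (Matrix.toLin' (Matrix.diagonal l)) :=
    hcont.measurableEmbedding hinj
  calc ∫ y, f y = ∫ y, f y ∂(ENNReal.ofReal (∏ i, l i) •
      Measure.map (Matrix.toLin' (Matrix.diagonal l)) volume) := by rw [h1]
    _ = ((∏ i, l i : ℝ) : ℂ) * ∫ y, f y ∂(Measure.map (Matrix.toLin' (Matrix.diagonal l)) volume) := by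
        rw [integral_smul_measure, ENNReal.toReal_ofReal hp.le, Complex.real_smul]
    _ = _ := by
        rw [hemb.integral_map]
        congr 1
        refine integral_congr_ae (Eventually.of_forall fun w => ?_)
        simp only [hlin]

lemma int_affine {m : ℕ} (c l : Fin m → ℝ) (hl : ∀ i, 0 < l i) (f : (Fin m → ℝ) → ℂ) :
    ∫ y, f y = ((∏ i, l i : ℝ) : ℂ) * ∫ w : Fin m → ℝ, f (fun i => c i + l i * w i) := by
  have h1 : ∫ y, f y = ∫ y, f (c + y) := (integral_add_left_eq_self f c).symm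
  rw [h1, int_scale l hl (fun y => f (c + y))]
  rfl

lemma measurable_ell {m : ℕ} (c l : Fin m → ℝ) : MeasurableSet (ell c l) := by
  unfold ell
  apply measurableSet_le
  · fun_prop
  · exact measurable_const

lemma nr_le_one_iff {m : ℕ} (w : Fin m → ℝ) : nr w ≤ 1 ↔ ∑ i, w i ^ 2 ≤ 1 := by
  unfold nr
  rw [Real.sqrt_le_one]

lemma abs_le_nr {m : ℕ} (z : Fin m → ℝ) (i : Fin m) : |z i| ≤ nr z := by
  unfold nr
  rw [← Real.sqrt_sq_eq_abs]
  apply Real.sqrt_le_sqrt
  exact Finset.single_le_sum (f := fun i => z i ^ 2) (fun j _ => sq_nonneg _) (Finset.mem_univ i)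

lemma int_ell {m : ℕ} (c l : Fin m → ℝ) (hl : ∀ i, 0 < l i) (η : Fin m → ℝ) :
    ∫ y in ell c l, e (-(∑ j, y j * η j)) = ((∏ i, l i : ℝ) : ℂ) * (e (-(∑ j, c j * η j)) *
      ftm m ({y : Fin m → ℝ | nr y ≤ 1}.indicator 1) (fun j => l j * η j)) := by
  rw [← integral_indicator (measurable_ell c l), int_affine c l hl]
  congr 1
  unfold ftm
  rw [← integral_const_mul]
  refine integral_congr_ae (Eventually.of_forall fun w => ?_)
  have hmem : ((fun i => c i + l i * w i) ∈ ell c l) ↔ w ∈ {y : Fin m → ℝ | nr y ≤ 1} := by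
    unfold ell
    simp only [mem_ofPred_eq]
    rw [nr_le_one_iff]
    have : ∀ i, (c i + l i * w i - c i) / l i = w i := by
      intro i
      have := (hl i).ne'
      field_simp
      ring
    simp only [this]
  by_cases hw : w ∈ {y : Fin m → ℝ | nr y ≤ 1}
  · simp only [indicator_of_mem (hmem.2 hw), indicator_of_mem hw, Pi.one_apply, mul_one]
    rw [← e_add]
    congr 1
    rw [← neg_add, ← Finset.sum_add_distrib]
    congr 1
    refine Finset.sum_congr rfl fun j _ => ?_
    ring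
  · simp only [indicator_of_notMem (fun h => hw (hmem.1 h)), indicator_of_notMem hw, mul_zero]

/-- decay of the Fourier transform of ellipsoids -/
theorem thm : S_EFT := by
  intro hB m hm
  obtain ⟨C, hC, h⟩ := hB m hm
  refine ⟨C, hC, ?_⟩
  intro c l hl i η
  have hp : 0 < ∏ i, l i := Finset.prod_pos fun i _ => hl i
  set ζ : Fin m → ℝ := fun j => l j * η j with hζ
  have h1 := h 1 ζ zero_le_one
  rw [one_pow, mul_one, one_mul] at h1
  rw [int_ell c l hl η, norm_mul, norm_mul, norm_e, one_mul, Complex.norm_real, Real.norm_eq_abs,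
    abs_of_pos hp]
  have hnr : 0 ≤ nr ζ := Real.sqrt_nonneg _
  have h2 : l i * |η i| ≤ 1 + nr ζ := by
    have : l i * |η i| = |ζ i| := by simp only [hζ]; rw [abs_mul, abs_of_pos (hl i)]
    rw [this]
    have := abs_le_nr ζ i
    linarith
  have h3 : (l i * |η i|) ^ (((m : ℝ) + 1) / 2) ≤ (1 + nr ζ) ^ (((m : ℝ) + 1) / 2) :=
    Real.rpow_le_rpow (mul_nonneg (hl i).le (abs_nonneg _)) h2 (by positivity)
  have h4 : (1 + nr ζ) ^ (-(((m : ℝ) + 1) / 2)) * (1 + nr ζ) ^ (((m : ℝ) + 1) / 2) = 1 := by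
    rw [← Real.rpow_add (by linarith)]
    simp
  calc (∏ i, l i) * ‖ftm m ({y : Fin m → ℝ | nr y ≤ 1}.indicator 1) ζ‖ *
        (l i * |η i|) ^ (((m : ℝ) + 1) / 2)
      ≤ (∏ i, l i) * (C * (1 + nr ζ) ^ (-(((m : ℝ) + 1) / 2))) *
        (1 + nr ζ) ^ (((m : ℝ) + 1) / 2) := by
        have h5 : 0 ≤ (l i * |η i|) ^ (((m : ℝ) + 1) / 2) :=
          Real.rpow_nonneg (mul_nonneg (hl i).le (abs_nonneg _)) _
        have h6 : 0 ≤ C * (1 + nr ζ) ^ (-(((m : ℝ) + 1) / 2)) :=
          mul_nonneg hC.le (Real.rpow_nonneg (by linarith) _)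
        exact mul_le_mul (mul_le_mul_of_nonneg_left h1 hp.le) h3 h5 (mul_nonneg hp.le h6)
    _ = C * (∏ i, l i) * ((1 + nr ζ) ^ (-(((m : ℝ) + 1) / 2)) *
        (1 + nr ζ) ^ (((m : ℝ) + 1) / 2)) := by ring
    _ = C * ∏ i, l i := by rw [h4, mul_one]

end Pool.Agent.Y407.LS2
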